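import Mathlib

set_option autoImplicit false

/-!
# The system with twelfth powers is not partition regular

Colour a nonzero integer `n = 3 ^ v m`, `3 ∤ m`, by `v` modulo `12` and `m` modulo `9`. In a
monochromatic solution of `5 ^ 4 x + 3 ^ 6 y = w z ^ 12` the 3-adic valuations of the three terms are
congruent to `v`, `v + 6` and `v` modulo `12`, so the first and the last one are equal and the one of
the second term is larger by at least `6`. Modulo `9` this gives `5 ^ 4 m = m m ^ 12 = m`, but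
`5 ^ 4 = 4` modulo `9`. So already the first equation of the system is not partition regular.
-/

namespace Pool.Agent.Results.MP_900fba_co.NotPartitionRegular

/-- A condition `S` on `m` integers (a system of equations in `m` unknowns) is partition regular
over the nonzero integers: for every colouring with finitely many colours there is a solution
consisting of nonzero integers which all have the same colour. (The colour of `0` plays no role.) -/
def PartitionRegular {m : ℕ} (S : (Fin m → ℤ) → Prop) : Prop :=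
  ∀ (r : ℕ) (c : ℤ → Fin r), ∃ (v : Fin m → ℤ) (j : Fin r),
    (∀ i, v i ≠ 0) ∧ (∀ i, c (v i) = j) ∧ S v

lemma dvd_left {A B C : ℕ} {P Q R : ℤ} (h : 3 ^ A * P + 3 ^ B * Q = 3 ^ C * R) (h1 : A < B)
    (h2 : A < C) : (3 : ℤ) ∣ P := by
  obtain ⟨k, rfl⟩ := Nat.exists_eq_add_of_lt h1
  obtain ⟨l, rfl⟩ := Nat.exists_eq_add_of_lt h2
  have h3 : (3 : ℤ) ^ A ≠ 0 := by positivity
  have h4 : (3 : ℤ) ^ A * P = 3 ^ A * (3 * (3 ^ l * R - 3 ^ k * Q)) := by
    have e1 : (3 : ℤ) ^ (A + k + 1) = 3 ^ A * (3 ^ k * 3) := by ring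
    have e2 : (3 : ℤ) ^ (A + l + 1) = 3 ^ A * (3 ^ l * 3) := by ring
    rw [e1, e2] at h
    linear_combination h
  exact ⟨_, mul_left_cancel₀ h3 h4⟩

lemma split (n : ℤ) (hn : n ≠ 0) : ∃ m : ℤ, n = 3 ^ (padicValInt 3 n) * m ∧ ¬ (3 : ℤ) ∣ m ∧
    m = n / 3 ^ (padicValInt 3 n) := by
  have h1 : (3 : ℤ) ^ (padicValInt 3 n) ∣ n := by
    have := padicValInt_dvd (p := 3) n
    exact_mod_cast this
  obtain ⟨m, hm⟩ := h1
  have h3 : (3 : ℤ) ^ (padicValInt 3 n) ≠ 0 := by positivity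
  refine ⟨m, hm, ?_, ?_⟩
  · rintro ⟨t, ht⟩
    have h4 : ((3 : ℕ) : ℤ) ^ (padicValInt 3 n + 1) ∣ n := by
      refine ⟨t, ?_⟩
      rw [pow_succ]
      push_cast
      rw [mul_assoc, ← ht]
      exact hm
    have h5 := (padicValInt_dvd_iff (p := 3) (padicValInt 3 n + 1) n).1 h4
    rcases h5 with h5 | h5
    · exact hn h5
    · omega
  · rw [eq_comm]
    exact Int.ediv_eq_of_eq_mul_right h3 hm

/-- The first equation of the system is not partition regular. -/
lemma first : ¬ PartitionRegular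
    (fun v : Fin 4 → ℤ => 5 ^ 4 * v 0 + 3 ^ 6 * v 1 = v 2 * v 3 ^ 12) := by
  intro hpr
  let K := ZMod 12 × ZMod 9
  let col : ℤ → K := fun n => ((padicValInt 3 n : ZMod 12), ((n / 3 ^ (padicValInt 3 n) : ℤ) : ZMod 9))
  obtain ⟨v, j, hv, hc, he⟩ := hpr _ (fun n => Fintype.equivFin K (col n))
  have hc' : ∀ i k, col (v i) = col (v k) := fun i k =>
    (Fintype.equivFin K).injective ((hc i).trans (hc k).symm)
  obtain ⟨x', ex, hx, hx'⟩ := split (v 0) (hv 0)
  obtain ⟨y', ey, hy, hy'⟩ := split (v 1) (hv 1)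
  obtain ⟨w', ew, hw, hw'⟩ := split (v 2) (hv 2)
  obtain ⟨z', ez, hz, hz'⟩ := split (v 3) (hv 3)
  have k01 := congrArg Prod.fst (hc' 0 1)
  have k02 := congrArg Prod.fst (hc' 0 2)
  have l02 := congrArg Prod.snd (hc' 0 2)
  simp only [col] at k01 k02 l02
  rw [← hx', ← hw'] at l02
  rw [ZMod.natCast_eq_natCast_iff'] at k01 k02
  rw [ZMod.intCast_eq_intCast_iff] at l02
  have l02' : (9 : ℤ) ∣ w' - x' := l02.dvd
  set a := padicValInt 3 (v 0)
  set b := padicValInt 3 (v 1)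
  set e := padicValInt 3 (v 2)
  set f := padicValInt 3 (v 3)
  have he' : (3 : ℤ) ^ a * (625 * x') + 3 ^ (b + 6) * y' = 3 ^ (e + 12 * f) * (w' * z' ^ 12) := by
    rw [ex, ey, ew, ez] at he
    rw [pow_add, pow_add, pow_mul']
    rw [mul_pow] at he
    linear_combination he
  have hp3 : Prime (3 : ℤ) := Int.prime_three
  have n1 : ¬ (3 : ℤ) ∣ 625 * x' := by
    intro h
    rcases hp3.dvd_or_dvd h with h | h
    · norm_num at h
    · exact hx h
  have n3 : ¬ (3 : ℤ) ∣ w' * z' ^ 12 := by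
    intro h
    rcases hp3.dvd_or_dvd h with h | h
    · exact hw h
    · exact hz (hp3.dvd_of_dvd_pow h)
  have he2 : (3 : ℤ) ^ (b + 6) * y' + 3 ^ a * (625 * x') = 3 ^ (e + 12 * f) * (w' * z' ^ 12) := by
    linear_combination he'
  have he3 : (3 : ℤ) ^ (e + 12 * f) * (w' * z' ^ 12) + 3 ^ (b + 6) * (- y') =
      3 ^ a * (625 * x') := by
    linear_combination - he'
  -- the valuations
  have hB : a < b + 6 := by
    by_contra hcon
    have h1 : b + 6 < a := by omega
    by_cases h2 : b + 6 < e + 12 * f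
    · exact hy (dvd_left he2 h1 h2)
    · have h3 : e + 12 * f < b + 6 := by omega
      exact n3 (dvd_left he3 h3 (by omega))
  have hC : a = e + 12 * f := by
    rcases lt_trichotomy a (e + 12 * f) with h | h | h
    · exact absurd (dvd_left he' hB h) n1
    · exact h
    · exact absurd (dvd_left he3 (by omega) h) n3
  have hB6 : a + 6 ≤ b + 6 := by omega
  obtain ⟨k, hk⟩ := Nat.exists_eq_add_of_le hB6
  rw [← hC, hk, show a + 6 + k = a + (6 + k) by ring, pow_add (3 : ℤ) a] at he'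
  have h3a : (3 : ℤ) ^ a ≠ 0 := by positivity
  have he4 : 625 * x' + 3 ^ (6 + k) * y' = w' * z' ^ 12 := by
    apply mul_left_cancel₀ h3a
    linear_combination he'
  -- modulo nine
  have hz12 : (9 : ℤ) ∣ z' ^ 12 - 1 := by
    have h1 : z' % 9 = 1 ∨ z' % 9 = 2 ∨ z' % 9 = 4 ∨ z' % 9 = 5 ∨ z' % 9 = 7 ∨ z' % 9 = 8 := by
      omega
    have h2 : ∀ r : ℤ, z' % 9 = r → r ^ 12 % 9 = 1 → z' ^ 12 % 9 = 1 := by
      intro r h h'
      have h3 : z' ^ 12 ≡ (z' % 9) ^ 12 [ZMOD 9] := (Int.mod_modEq z' 9).symm.pow 12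
      rw [h] at h3
      exact Eq.trans h3 h'
    have h4 : z' ^ 12 % 9 = 1 := by
      rcases h1 with h | h | h | h | h | h <;> exact h2 _ h (by norm_num)
    omega
  obtain ⟨s, hs⟩ := hz12
  obtain ⟨t, ht⟩ := l02'
  have h9 : (9 : ℤ) ∣ 624 * x' := by
    refine ⟨t * z' ^ 12 + x' * s - 3 ^ (4 + k) * y', ?_⟩
    have e1 : (3 : ℤ) ^ (6 + k) = 9 * 3 ^ (4 + k) := by
      rw [show 6 + k = 2 + (4 + k) by ring, pow_add]
      norm_num
    rw [e1] at he4
    linear_combination he4 + z' ^ 12 * ht + x' * hs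
  omega

/-- The system `5^4 x₁ + 3^6 y₁ = w₁ z₁^12`, `(5^4 - 3^6) x₂ + 3^6 y₂ = w₂ z₂^12` is not partition
regular over the nonzero integers, and neither is its first equation alone. -/
theorem result :
    (¬ PartitionRegular (fun v : Fin 8 → ℤ =>
      5 ^ 4 * v 0 + 3 ^ 6 * v 1 = v 2 * v 3 ^ 12 ∧
      (5 ^ 4 - 3 ^ 6) * v 4 + 3 ^ 6 * v 5 = v 6 * v 7 ^ 12)) ∧
    ¬ PartitionRegular (fun v : Fin 4 → ℤ => 5 ^ 4 * v 0 + 3 ^ 6 * v 1 = v 2 * v 3 ^ 12) := by
  refine ⟨fun h => first fun r c => ?_, first⟩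
  obtain ⟨v, j, hv, hc, h1, -⟩ := h r c
  refine ⟨![v 0, v 1, v 2, v 3], j, ?_, ?_, ?_⟩
  · intro i
    fin_cases i
    exacts [hv 0, hv 1, hv 2, hv 3]
  · intro i
    fin_cases i
    exacts [hc 0, hc 1, hc 2, hc 3]
  · exact h1

end Pool.Agent.Results.MP_900fba_co.NotPartitionRegular
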